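import Pool.Agent.Helper44.GJ.Stmts

open Finset MeasureTheory Filter Topology Matrix
open scoped ENNReal ContDiff

namespace Pool.Agent.Helper44.GJ

open Pool.Agent.Helper44.GF Pool.Agent.Helper44.GN Pool.Agent.Helper44.GH

section se2

variable {n m : ℕ}

/-- the quadratic form of a normalised matrix -/
theorem se2_quad (V : Matrix (Fin n) (Fin m) ℝ) (c : Fin n → ℝ) (h : TT V V c = 1) (u v : Fin m → ℝ) :
    ∑ i, c i * V.mulVec u i * V.mulVec v i = u ⬝ᵥ v := by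
  have h1 : u ⬝ᵥ (TT V V c).mulVec v = u ⬝ᵥ v := by rw [h, Matrix.one_mulVec]
  rw [← h1]
  unfold TT
  rw [← Matrix.mulVec_mulVec, ← Matrix.mulVec_mulVec, Matrix.dotProduct_mulVec, Matrix.vecMul_transpose]
  unfold dotProduct
  apply Finset.sum_congr rfl
  intro i _
  rw [Matrix.mulVec_diagonal]
  ring

theorem se2_rg (V : Matrix (Fin n) (Fin m) ℝ) (c : Fin n → ℝ) (h : TT V V c = 1) (v : Fin m → ℝ) :
    Rg V (fun x => v ⬝ᵥ x) (fun i _ => c i * V.mulVec v i) where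
  Fc := by
    unfold dotProduct
    fun_prop
  wc := fun i => continuous_const
  gr := by
    refine ⟨(∑ a, |v a|) + ∑ i, |c i * V.mulVec v i|, 1, fun x => ⟨?_, fun i => ?_⟩⟩
    · have h1 : |v ⬝ᵥ x| ≤ (∑ a, |v a|) * ‖x‖ := by
        unfold dotProduct
        refine (Finset.abs_sum_le_sum_abs _ _).trans ?_
        rw [Finset.sum_mul]
        apply Finset.sum_le_sum
        intro a _
        rw [abs_mul]
        exact mul_le_mul_of_nonneg_left (norm_le_pi_norm x a) (abs_nonneg _)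
      have h2 : 0 ≤ ∑ a, |v a| := Finset.sum_nonneg fun _ _ => abs_nonneg _
      have h3 : 0 ≤ ∑ i, |c i * V.mulVec v i| := Finset.sum_nonneg fun _ _ => abs_nonneg _
      have h4 := norm_nonneg x
      rw [pow_one]
      nlinarith
    · have h1 : |c i * V.mulVec v i| ≤ ∑ i, |c i * V.mulVec v i| :=
        Finset.single_le_sum (f := fun i => |c i * V.mulVec v i|) (fun _ _ => abs_nonneg _) (Finset.mem_univ i)
      have h2 : 0 ≤ ∑ a, |v a| := Finset.sum_nonneg fun _ _ => abs_nonneg _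
      have h3 : 0 ≤ ∑ i, |c i * V.mulVec v i| := Finset.sum_nonneg fun _ _ => abs_nonneg _
      have h4 := norm_nonneg x
      rw [pow_one]
      nlinarith
  dv := by
    intro x k
    have h1 : (∑ i, (fun i (_ : Fin m → ℝ) => c i * V.mulVec v i) i x * V.mulVec k i) = v ⬝ᵥ k :=
      se2_quad V c h v k
    rw [h1]
    have h2 : (fun r : ℝ => v ⬝ᵥ (x + r • k)) = fun r : ℝ => v ⬝ᵥ x + r * (v ⬝ᵥ k) := by
      funext r
      rw [dotProduct_add, dotProduct_smul, smul_eq_mul]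
    rw [h2]
    have h3 := ((hasDerivAt_id (0 : ℝ)).mul_const (v ⬝ᵥ k)).const_add (v ⬝ᵥ x)
    rw [one_mul] at h3
    exact h3

theorem se2_yinv (p : ℝ) (V : Matrix (Fin n) (Fin m) ℝ) (c : Fin n → ℝ) (j : Fin n) (x : Fin m → ℝ) :
    (Yj p V c j x)⁻¹ = c j / (p * (p - 1)) * |V.mulVec x j| ^ (-(p - 2)) := by
  unfold Yj g2
  rw [inv_div, Real.rpow_neg (abs_nonneg _)]
  rw [div_eq_mul_inv, mul_inv]
  ring

theorem se2_int (hIN1 : ST_IN1) {p : ℝ} (hp : 2 < p) (hp' : p ≤ 11 / 5) {V : Matrix (Fin n) (Fin m) ℝ}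
    (hV : Function.Injective V.mulVec) (c : Fin n → ℝ) (i : Fin n) (hi : V i ≠ 0) :
    Integrable (fun x => (Yj p V c i x)⁻¹ ^ 2 * ee p V x) := by
  have h1 := hIN1 n m p V hp (by linarith) hV i i hi hi (p - 2) (p - 2) (by linarith) (by linarith) (by linarith)
    (fun _ => 1) 1 0 aestronglyMeasurable_const (fun x => by simp)
  have h2 := h1.const_mul ((c i / (p * (p - 1))) ^ 2)
  refine h2.congr (Eventually.of_forall fun x => ?_)
  show (c i / (p * (p - 1))) ^ 2 * (|V.mulVec x i| ^ (-(p - 2)) * |V.mulVec x i| ^ (-(p - 2)) * 1 * ee p V x) =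
    (Yj p V c i x)⁻¹ ^ 2 * ee p V x
  rw [se2_yinv]
  ring

end se2

theorem st_SE2 (hBLW : ST_BLW) (hIN1 : ST_IN1) : ST_SE2 := by
  intro n m p V c hp hp' hV hR hT j hj v
  have hpp : 0 < p * (p - 1) := mul_pos (by linarith) (by linarith)
  set K : ℝ := c j / (p * (p - 1)) with hK
  have hK0 : 0 < K := div_pos (hR.c0 j) hpp
  have hee : ∀ x, 0 < ee p V x := fun x => Real.exp_pos _
  obtain ⟨bi, bl⟩ := hBLW n m p V hp (by linarith) hV (fun x => v ⬝ᵥ x) (fun i _ => c i * V.mulVec v i)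
    (se2_rg V c hT v) (fun x => by rw [dotProduct_neg]) j hj (p - 2) (by linarith) (by linarith)
  -- the left side
  have e1 : IE p V (fun x => (Yj p V c j x)⁻¹ * (v ⬝ᵥ x) ^ 2) =
      K * IE p V (fun x => |V.mulVec x j| ^ (-(p - 2)) * (v ⬝ᵥ x) ^ 2) := by
    unfold IE
    rw [← integral_const_mul]
    congr 1
    funext x
    beta_reduce
    rw [se2_yinv]
    ring
  have e2 : K * IE p V (fun x => |V.mulVec x j| ^ (-(p - 2)) *
      ∑ i, (fun i (_ : Fin m → ℝ) => c i * V.mulVec v i) i x ^ 2 / g2 p (V.mulVec x i)) =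
      ∫ x, (∑ i, c i * V.mulVec v i * V.mulVec v i * ((Yj p V c j x)⁻¹ * (Yj p V c i x)⁻¹)) * ee p V x := by
    unfold IE
    rw [← integral_const_mul]
    congr 1
    funext x
    beta_reduce
    rw [← mul_assoc, ← mul_assoc, ← se2_yinv, Finset.mul_sum]
    congr 1
    apply Finset.sum_congr rfl
    intro i _
    unfold Yj
    rw [inv_div, inv_div]
    ring
  have i2 : Integrable (fun x => (∑ i, c i * V.mulVec v i * V.mulVec v i *
      ((Yj p V c j x)⁻¹ * (Yj p V c i x)⁻¹)) * ee p V x) := by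
    refine (bi.const_mul K).congr (Eventually.of_forall fun x => ?_)
    show K * ((|V.mulVec x j| ^ (-(p - 2)) *
      ∑ i, (c i * V.mulVec v i) ^ 2 / g2 p (V.mulVec x i)) * ee p V x) = _
    rw [← mul_assoc, ← mul_assoc, ← se2_yinv, Finset.mul_sum]
    congr 1
    apply Finset.sum_congr rfl
    intro i _
    unfold Yj
    rw [inv_div, inv_div]
    ring
  -- the right side
  have hterm : ∀ i, Integrable (fun x => c i * V.mulVec v i * V.mulVec v i *
      (1 / 2 * ((Yj p V c j x)⁻¹ ^ 2 + (Yj p V c i x)⁻¹ ^ 2)) * ee p V x) ∧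
      ∫ x, c i * V.mulVec v i * V.mulVec v i *
        (1 / 2 * ((Yj p V c j x)⁻¹ ^ 2 + (Yj p V c i x)⁻¹ ^ 2)) * ee p V x ≤
      c i * V.mulVec v i * V.mulVec v i * (6 / 5 * Mp p V) := by
    intro i
    by_cases hi : V i = 0
    · have h1 : V.mulVec v i = 0 := by
        show V i ⬝ᵥ v = 0
        rw [hi, zero_dotProduct]
      simp only [h1, mul_zero, zero_mul, integral_zero, le_refl, and_true]
      exact integrable_zero _ _ _
    · have j1 := se2_int hIN1 hp hp' hV c j hj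
      have j2 := se2_int hIN1 hp hp' hV c i hi
      have e3 : (fun x => c i * V.mulVec v i * V.mulVec v i *
          (1 / 2 * ((Yj p V c j x)⁻¹ ^ 2 + (Yj p V c i x)⁻¹ ^ 2)) * ee p V x) =
          fun x => c i * V.mulVec v i * V.mulVec v i * (1 / 2) *
            ((Yj p V c j x)⁻¹ ^ 2 * ee p V x + (Yj p V c i x)⁻¹ ^ 2 * ee p V x) := by
        funext x; ring
      rw [e3]
      refine ⟨(j1.add j2).const_mul _, ?_⟩
      rw [integral_const_mul, integral_add j1 j2]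
      have r1 : ∫ x, (Yj p V c j x)⁻¹ ^ 2 * ee p V x ≤ 6 / 5 * Mp p V := hR.r3 j hj
      have r2 : ∫ x, (Yj p V c i x)⁻¹ ^ 2 * ee p V x ≤ 6 / 5 * Mp p V := hR.r3 i hi
      have hc : 0 ≤ c i * V.mulVec v i * V.mulVec v i := by
        rw [mul_assoc]
        exact mul_nonneg (hR.c0 i).le (mul_self_nonneg _)
      calc c i * V.mulVec v i * V.mulVec v i * (1 / 2) *
            ((∫ x, (Yj p V c j x)⁻¹ ^ 2 * ee p V x) + ∫ x, (Yj p V c i x)⁻¹ ^ 2 * ee p V x) =
          c i * V.mulVec v i * V.mulVec v i * (1 / 2 *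
            ((∫ x, (Yj p V c j x)⁻¹ ^ 2 * ee p V x) + ∫ x, (Yj p V c i x)⁻¹ ^ 2 * ee p V x)) := by ring
        _ ≤ _ := mul_le_mul_of_nonneg_left (by linarith) hc
  have e4 : (fun x => (∑ i, c i * V.mulVec v i * V.mulVec v i *
      (1 / 2 * ((Yj p V c j x)⁻¹ ^ 2 + (Yj p V c i x)⁻¹ ^ 2))) * ee p V x) =
      fun x => ∑ i, c i * V.mulVec v i * V.mulVec v i *
      (1 / 2 * ((Yj p V c j x)⁻¹ ^ 2 + (Yj p V c i x)⁻¹ ^ 2)) * ee p V x := by
    funext x
    rw [Finset.sum_mul]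
  have i3 : Integrable (fun x => (∑ i, c i * V.mulVec v i * V.mulVec v i *
      (1 / 2 * ((Yj p V c j x)⁻¹ ^ 2 + (Yj p V c i x)⁻¹ ^ 2))) * ee p V x) := by
    rw [e4]
    exact integrable_finsetSum _ fun i _ => (hterm i).1
  have h3 : ∫ x, (∑ i, c i * V.mulVec v i * V.mulVec v i *
      (1 / 2 * ((Yj p V c j x)⁻¹ ^ 2 + (Yj p V c i x)⁻¹ ^ 2))) * ee p V x ≤ 6 / 5 * (v ⬝ᵥ v) * Mp p V := by
    rw [e4, integral_finsetSum _ fun i _ => (hterm i).1]
    refine (Finset.sum_le_sum fun i _ => (hterm i).2).trans ?_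
    rw [← Finset.sum_mul, se2_quad V c hT v v]
    apply le_of_eq
    ring
  have h4 : ∫ x, (∑ i, c i * V.mulVec v i * V.mulVec v i * ((Yj p V c j x)⁻¹ * (Yj p V c i x)⁻¹)) * ee p V x ≤
      ∫ x, (∑ i, c i * V.mulVec v i * V.mulVec v i *
      (1 / 2 * ((Yj p V c j x)⁻¹ ^ 2 + (Yj p V c i x)⁻¹ ^ 2))) * ee p V x := by
    apply integral_mono i2 i3
    intro x
    apply mul_le_mul_of_nonneg_right _ (hee x).le
    apply Finset.sum_le_sum
    intro i _
    have hc : 0 ≤ c i * V.mulVec v i * V.mulVec v i := by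
      rw [mul_assoc]
      exact mul_nonneg (hR.c0 i).le (mul_self_nonneg _)
    apply mul_le_mul_of_nonneg_left _ hc
    nlinarith [sq_nonneg ((Yj p V c j x)⁻¹ - (Yj p V c i x)⁻¹)]
  rw [e1]
  refine le_trans (mul_le_mul_of_nonneg_left bl hK0.le) ?_
  rw [e2]
  exact h4.trans h3

end Pool.Agent.Helper44.GJ
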