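import Pool.Agent.Helper44.GJ.Stmts

open Finset MeasureTheory Filter Topology Matrix
open scoped ENNReal ContDiff

namespace Pool.Agent.Helper44.GJ

section cpe

variable {f g τ : ℝ → ℝ}

theorem cpe_lin (hf : IntegrableOn f (Set.Ioi 0)) (hg : IntegrableOn g (Set.Ioi 0))
    (h0 : ∫ t in Set.Ioi (0 : ℝ), f t = ∫ t in Set.Ioi (0 : ℝ), g t)
    (hτf : IntegrableOn (fun t => τ t * f t) (Set.Ioi 0)) (hτg : IntegrableOn (fun t => τ t * g t) (Set.Ioi 0))
    (h1 : ∫ t in Set.Ioi (0 : ℝ), τ t * f t = ∫ t in Set.Ioi (0 : ℝ), τ t * g t) (α β : ℝ) :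
    IntegrableOn (fun t => (α + β * τ t) * (f t - g t)) (Set.Ioi 0) ∧
      ∫ t in Set.Ioi (0 : ℝ), (α + β * τ t) * (f t - g t) = 0 := by
  have e : (fun t => (α + β * τ t) * (f t - g t)) =
      fun t => α * (f t - g t) + β * (τ t * f t - τ t * g t) := by
    funext t; ring
  have i1 : IntegrableOn (fun t => α * (f t - g t)) (Set.Ioi 0) := (hf.sub hg).const_mul α
  have i2 : IntegrableOn (fun t => β * (τ t * f t - τ t * g t)) (Set.Ioi 0) := (hτf.sub hτg).const_mul β
  rw [e]
  refine ⟨i1.add i2, ?_⟩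
  rw [integral_add i1 i2, integral_const_mul, integral_const_mul, integral_sub hf hg, integral_sub hτf hτg, h0, h1]
  ring

theorem cpe_zero (hf : IntegrableOn f (Set.Ioi 0)) (hg : IntegrableOn g (Set.Ioi 0))
    (h0 : ∫ t in Set.Ioi (0 : ℝ), f t = ∫ t in Set.Ioi (0 : ℝ), g t)
    (hτf : IntegrableOn (fun t => τ t * f t) (Set.Ioi 0)) (hτg : IntegrableOn (fun t => τ t * g t) (Set.Ioi 0))
    (h1 : ∫ t in Set.Ioi (0 : ℝ), τ t * f t = ∫ t in Set.Ioi (0 : ℝ), τ t * g t) (α β c : ℝ)
    (h : ∀ t, 0 < t → t ≠ c → 0 ≤ (α + β * τ t) * (f t - g t))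
    (h' : ∀ t, 0 < t → t ≠ c → α + β * τ t ≠ 0) :
    ∀ᵐ t ∂(volume.restrict (Set.Ioi (0 : ℝ))), f t = g t := by
  obtain ⟨i, e⟩ := cpe_lin hf hg h0 hτf hτg h1 α β
  have hc : ∀ᵐ t ∂(volume.restrict (Set.Ioi (0 : ℝ))), t ≠ c := by
    apply ae_restrict_of_ae
    have h2 : ({c} : Set ℝ)ᶜ ∈ ae (volume : Measure ℝ) := compl_mem_ae_iff.mpr (measure_singleton c)
    filter_upwards [h2] with t ht using ht
  have hp : ∀ᵐ t ∂(volume.restrict (Set.Ioi (0 : ℝ))), t ∈ Set.Ioi (0 : ℝ) := ae_restrict_mem measurableSet_Ioi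
  have hn : 0 ≤ᵐ[volume.restrict (Set.Ioi (0 : ℝ))] fun t => (α + β * τ t) * (f t - g t) := by
    filter_upwards [hc, hp] with t h2 h3 using h t h3 h2
  have h4 := (integral_eq_zero_iff_of_nonneg_ae hn i).mp e
  filter_upwards [h4, hc, hp] with t h5 h6 h7
  have h8 : (α + β * τ t) * (f t - g t) = 0 := h5
  rcases mul_eq_zero.mp h8 with h9 | h9
  · exact absurd h9 (h' t h7 h6)
  · linarith

theorem cpe_neg {χ : ℝ → ℝ} (hf : IntegrableOn f (Set.Ioi 0)) (hg : IntegrableOn g (Set.Ioi 0))
    (h0 : ∫ t in Set.Ioi (0 : ℝ), f t = ∫ t in Set.Ioi (0 : ℝ), g t)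
    (hτf : IntegrableOn (fun t => τ t * f t) (Set.Ioi 0)) (hτg : IntegrableOn (fun t => τ t * g t) (Set.Ioi 0))
    (h1 : ∫ t in Set.Ioi (0 : ℝ), τ t * f t = ∫ t in Set.Ioi (0 : ℝ), τ t * g t)
    (hχf : IntegrableOn (fun t => χ (τ t) * f t) (Set.Ioi 0))
    (hχg : IntegrableOn (fun t => χ (τ t) * g t) (Set.Ioi 0)) (α β : ℝ)
    (h : ∀ t, 0 < t → (χ (τ t) - (α + β * τ t)) * (f t - g t) ≤ 0) :
    ∫ t in Set.Ioi (0 : ℝ), χ (τ t) * f t ≤ ∫ t in Set.Ioi (0 : ℝ), χ (τ t) * g t := by
  obtain ⟨i, e⟩ := cpe_lin hf hg h0 hτf hτg h1 α β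
  have e2 : ∫ t in Set.Ioi (0 : ℝ), (χ (τ t) - (α + β * τ t)) * (f t - g t) =
      (∫ t in Set.Ioi (0 : ℝ), χ (τ t) * f t) - ∫ t in Set.Ioi (0 : ℝ), χ (τ t) * g t := by
    have e3 : (fun t => (χ (τ t) - (α + β * τ t)) * (f t - g t)) =
        fun t => (χ (τ t) * f t - χ (τ t) * g t) - (α + β * τ t) * (f t - g t) := by
      funext t; ring
    have i2 : IntegrableOn (fun t => χ (τ t) * f t - χ (τ t) * g t) (Set.Ioi 0) := hχf.sub hχg
    rw [e3, integral_sub i2 i, e, sub_zero, integral_sub hχf hχg]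
  have h2 : ∫ t in Set.Ioi (0 : ℝ), (χ (τ t) - (α + β * τ t)) * (f t - g t) ≤ 0 := by
    apply integral_nonpos_of_ae
    filter_upwards [ae_restrict_mem measurableSet_Ioi] with t ht using h t ht
  linarith

/-- a point between two points -/
theorem cpe_btw {x y z η : ℝ} (h1 : 0 < η * (y - x)) (h2 : 0 < η * (z - y)) :
    ∃ a b : ℝ, 0 < a ∧ 0 < b ∧ a + b = 1 ∧ y = a * x + b * z := by
  have h3 : 0 < η * (z - x) := by
    have : η * (z - x) = η * (y - x) + η * (z - y) := by ring
    linarith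
  refine ⟨η * (z - y) / (η * (z - x)), η * (y - x) / (η * (z - x)), div_pos h2 h3, div_pos h1 h3, ?_, ?_⟩
  · rw [← add_div, div_eq_one_iff_eq h3.ne']; ring
  · have h4 : η ≠ 0 := by
      intro h; rw [h, zero_mul] at h3; exact lt_irrefl _ h3
    have h5 : z - x ≠ 0 := by
      intro h; rw [h, mul_zero] at h3; exact lt_irrefl _ h3
    field_simp
    ring

/-- a convex function minus an affine one -/
theorem cpe_cvx {χ : ℝ → ℝ} (hχ : ConvexOn ℝ (Set.Ioi 0) χ) (α β : ℝ) {x z a b : ℝ} (hx : 0 < x) (hz : 0 < z)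
    (ha : 0 < a) (hb : 0 < b) (hab : a + b = 1) :
    χ (a * x + b * z) - (α + β * (a * x + b * z)) ≤ a * (χ x - (α + β * x)) + b * (χ z - (α + β * z)) := by
  have h := hχ.2 hx hz ha.le hb.le hab
  rw [smul_eq_mul, smul_eq_mul, smul_eq_mul, smul_eq_mul] at h
  have h2 : a * (χ x - (α + β * x)) + b * (χ z - (α + β * z)) =
      a * χ x + b * χ z - ((a + b) * α + β * (a * x + b * z)) := by ring
  rw [h2, hab]
  linarith

end cpe

theorem st_CPE : ST_CPE := by
  intro f M l τ χ hf hl hτ0 hτ hτf hτg hτe hχ hχf hχg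
  set g : ℝ → ℝ := fun t => M * l * Real.exp (-(l * t)) with hg
  have hM := hf.mp
  have hMl : 0 < M * l := mul_pos hM hl
  have hgp : ∀ t, 0 < g t := fun t => mul_pos hMl (Real.exp_pos _)
  have ig : IntegrableOn g (Set.Ioi 0) := by
    have h1 := (integrableOn_exp_mul_Ioi (a := -l) (by linarith) 0).const_mul (M * l)
    refine h1.congr (Eventually.of_forall fun t => ?_)
    show M * l * Real.exp (-l * t) = M * l * Real.exp (-(l * t))
    rw [neg_mul]
  have eg : ∫ t in Set.Ioi (0 : ℝ), g t = M := by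
    have h1 := integral_exp_mul_Ioi (a := -l) (by linarith) 0
    have h2 : ∫ t in Set.Ioi (0 : ℝ), g t = M * l * ∫ t in Set.Ioi (0 : ℝ), Real.exp (-l * t) := by
      rw [← integral_const_mul]
      apply integral_congr_ae
      refine Eventually.of_forall fun t => ?_
      show M * l * Real.exp (-(l * t)) = M * l * Real.exp (-l * t)
      rw [neg_mul]
    rw [h2, h1, mul_zero, Real.exp_zero]
    field_simp
  have h0 : ∫ t in Set.Ioi (0 : ℝ), f t = ∫ t in Set.Ioi (0 : ℝ), g t := by rw [hf.ma, eg]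
  -- the sign of the monotonicity
  obtain ⟨η, hη⟩ : ∃ η : ℝ, ∀ s t, 0 < s → s < t → 0 < η * (τ t - τ s) := by
    rcases hτ with h | h
    · refine ⟨1, fun s t hs hst => ?_⟩
      have := h (Set.mem_Ioi.mpr hs) (Set.mem_Ioi.mpr (hs.trans hst)) hst
      linarith
    · refine ⟨-1, fun s t hs hst => ?_⟩
      have := h (Set.mem_Ioi.mpr hs) (Set.mem_Ioi.mpr (hs.trans hst)) hst
      linarith
  -- equality case
  have hP : (∀ᵐ t ∂(volume.restrict (Set.Ioi (0 : ℝ))), f t = g t) →
      ∫ t in Set.Ioi (0 : ℝ), χ (τ t) * f t ≤ ∫ t in Set.Ioi (0 : ℝ), χ (τ t) * g t := by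
    intro h
    apply le_of_eq
    apply integral_congr_ae
    filter_upwards [h] with t ht
    rw [ht]
  have hZ := fun α β c => cpe_zero hf.it ig h0 hτf hτg hτe α β c
  -- one change of sign
  have hone : ∀ (b ε : ℝ), 0 < b → ε ≠ 0 → (∀ t, b < t → 0 ≤ ε * (f t - g t)) →
      (∀ t, 0 < t → t < b → ε * (f t - g t) ≤ 0) → ∀ᵐ t ∂(volume.restrict (Set.Ioi (0 : ℝ))), f t = g t := by
    intro b ε hb hε h1 h2
    apply hZ (-(η * ε * τ b)) (η * ε) b
    · intro t ht htb
      have e : (-(η * ε * τ b) + η * ε * τ t) * (f t - g t) = (η * (τ t - τ b)) * (ε * (f t - g t)) := by ring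
      rw [e]
      rcases lt_or_gt_of_ne htb with h | h
      · have h3 := hη t b ht h
        have h4 : η * (τ t - τ b) ≤ 0 := by
          have : η * (τ t - τ b) = -(η * (τ b - τ t)) := by ring
          linarith
        exact mul_nonneg_of_nonpos_of_nonpos h4 (h2 t ht h)
      · exact mul_nonneg (hη b t hb h).le (h1 t h)
    · intro t ht htb hc
      have e : ε * (η * (τ t - τ b)) = 0 := by linarith [hc]
      rcases mul_eq_zero.mp e with h | h
      · exact hε h
      · rcases lt_or_gt_of_ne htb with h5 | h5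
        · have h3 := hη t b ht h5
          have : η * (τ b - τ t) = -(η * (τ t - τ b)) := by ring
          rw [this, h, neg_zero] at h3
          exact lt_irrefl _ h3
        · have h3 := hη b t hb h5
          rw [h] at h3
          exact lt_irrefl _ h3
  -- the set where `f ≥ g`
  set S : Set ℝ := {t | 0 < t ∧ g t ≤ f t} with hS
  have hconv : ∀ s ∈ S, ∀ s' ∈ S, ∀ t, s < t → t < s' → t ∈ S := by
    intro s hs s' hs' t h1 h2
    obtain ⟨a, b, ha, hb, hab, e⟩ := cpe_btw (x := s) (y := t) (z := s') (η := 1) (by linarith) (by linarith)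
    refine ⟨hs.1.trans h1, ?_⟩
    rw [e]
    refine le_trans ?_ (hf.lc s s' a b hs.1 hs'.1 ha hb hab)
    have h3 : g s ^ a * g s' ^ b ≤ f s ^ a * f s' ^ b :=
      mul_le_mul (Real.rpow_le_rpow (hgp s).le hs.2 ha.le) (Real.rpow_le_rpow (hgp s').le hs'.2 hb.le)
        (Real.rpow_nonneg (hgp s').le _) (Real.rpow_nonneg ((hgp s).le.trans hs.2) _)
    refine le_trans (le_of_eq ?_) h3
    show M * l * Real.exp (-(l * (a * s + b * s'))) =
      (M * l * Real.exp (-(l * s))) ^ a * (M * l * Real.exp (-(l * s'))) ^ b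
    rw [Real.mul_rpow hMl.le (Real.exp_pos _).le, Real.mul_rpow hMl.le (Real.exp_pos _).le, ← Real.exp_mul,
      ← Real.exp_mul]
    have h4 : (M * l) ^ a * Real.exp (-(l * s) * a) * ((M * l) ^ b * Real.exp (-(l * s') * b)) =
        ((M * l) ^ a * (M * l) ^ b) * (Real.exp (-(l * s) * a) * Real.exp (-(l * s') * b)) := by ring
    rw [h4, ← Real.rpow_add hMl, hab, Real.rpow_one, ← Real.exp_add]
    congr 2
    ring
  have hout : ∀ t, 0 < t → t ∉ S → f t - g t < 0 := by
    intro t ht hts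
    by_contra h
    push Not at h
    exact hts ⟨ht, by linarith⟩
  have hin : ∀ t ∈ S, 0 ≤ f t - g t := fun t ht => by linarith [ht.2]
  rcases S.eq_empty_or_nonempty with hE | hNE
  · apply hP
    apply hZ (-1) 0 0
    · intro t ht _
      have := hout t ht (by rw [hE]; exact Set.notMem_empty t)
      nlinarith
    · intro t _ _
      norm_num
  have hbb : BddBelow S := ⟨0, fun t ht => ht.1.le⟩
  have ha0 : 0 ≤ sInf S := le_csInf hNE fun t ht => ht.1.le
  have hlow : ∀ t, 0 < t → t < sInf S → f t - g t < 0 := fun t ht h =>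
    hout t ht (fun hts => absurd (csInf_le hbb hts) (not_le.mpr h))
  by_cases hB : BddAbove S
  · have hup : ∀ t, sSup S < t → 0 < t → f t - g t < 0 := fun t h ht =>
      hout t ht (fun hts => absurd (le_csSup hB hts) (not_le.mpr h))
    have hmid : ∀ t, sInf S < t → t < sSup S → 0 ≤ f t - g t := by
      intro t h1 h2
      obtain ⟨s, hs, hst⟩ := exists_lt_of_csInf_lt hNE h1
      obtain ⟨s', hs', hst'⟩ := exists_lt_of_lt_csSup hNE h2
      exact hin t (hconv s hs s' hs' t hst hst')
    obtain ⟨x0, hx0⟩ := hNE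
    have hb0 : 0 < sSup S := hx0.1.trans_le (le_csSup hB hx0)
    rcases ha0.eq_or_lt with h | h
    · apply hP
      apply hone (sSup S) (-1) hb0 (by norm_num)
      · intro t ht
        have := hup t ht (hb0.trans ht)
        linarith
      · intro t ht ht2
        have := hmid t (by rw [← h]; exact ht) ht2
        linarith
    · rcases lt_or_ge (sInf S) (sSup S) with hab | hab
      · -- two changes of sign
        have hy1 := hτ0 _ h
        have hy2 := hτ0 _ hb0
        have hne : τ (sSup S) - τ (sInf S) ≠ 0 := by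
          intro hc
          have := hη _ _ h hab
          rw [hc, mul_zero] at this
          exact lt_irrefl _ this
        set β := (χ (τ (sSup S)) - χ (τ (sInf S))) / (τ (sSup S) - τ (sInf S)) with hβ
        set α := χ (τ (sInf S)) - β * τ (sInf S) with hα
        have e1 : χ (τ (sInf S)) - (α + β * τ (sInf S)) = 0 := by rw [hα]; ring
        have e2 : χ (τ (sSup S)) - (α + β * τ (sSup S)) = 0 := by
          have h3 : β * (τ (sSup S) - τ (sInf S)) = χ (τ (sSup S)) - χ (τ (sInf S)) := by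
            rw [hβ, div_mul_cancel₀ _ hne]
          rw [hα]; linarith
        apply cpe_neg hf.it ig h0 hτf hτg hτe hχf hχg α β
        intro t ht
        rcases lt_trichotomy t (sInf S) with h3 | h3 | h3
        · -- left
          have h4 : 0 ≤ χ (τ t) - (α + β * τ t) := by
            obtain ⟨a, b, ha, hb, hab', e⟩ := cpe_btw (hη _ _ ht h3) (hη _ _ h hab)
            have h5 := cpe_cvx hχ α β (hτ0 t ht) hy2 ha hb hab'
            rw [← e, e1, e2, mul_zero, add_zero] at h5
            exact nonneg_of_mul_nonneg_right h5 ha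
          exact mul_nonpos_of_nonneg_of_nonpos h4 (hlow t ht h3).le
        · rw [h3, e1, zero_mul]
        · rcases lt_trichotomy t (sSup S) with h4 | h4 | h4
          · have h5 : χ (τ t) - (α + β * τ t) ≤ 0 := by
              obtain ⟨a, b, ha, hb, hab', e⟩ := cpe_btw (hη _ _ h h3) (hη _ _ ht h4)
              have h5 := cpe_cvx hχ α β hy1 hy2 ha hb hab'
              rw [← e, e1, e2, mul_zero, mul_zero, add_zero] at h5
              exact h5
            exact mul_nonpos_of_nonpos_of_nonneg h5 (hmid t h3 h4)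
          · rw [h4, e2, zero_mul]
          · have h5 : 0 ≤ χ (τ t) - (α + β * τ t) := by
              obtain ⟨a, b, ha, hb, hab', e⟩ := cpe_btw (hη _ _ h hab) (hη _ _ hb0 h4)
              have h5 := cpe_cvx hχ α β hy1 (hτ0 t ht) ha hb hab'
              rw [← e, e1, e2, mul_zero, zero_add] at h5
              exact nonneg_of_mul_nonneg_right h5 hb
            exact mul_nonpos_of_nonneg_of_nonpos h5 (hup t h4 ht).le
      · apply hP
        apply hZ (-1) 0 (sInf S)
        · intro t ht htc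
          have h3 : f t - g t < 0 := by
            rcases lt_or_gt_of_ne htc with h3 | h3
            · exact hlow t ht h3
            · exact hup t (hab.trans_lt h3) ht
          nlinarith
        · intro t _ _
          norm_num
  · rw [not_bddAbove_iff] at hB
    have hmid : ∀ t, sInf S < t → 0 ≤ f t - g t := by
      intro t h1
      obtain ⟨s, hs, hst⟩ := exists_lt_of_csInf_lt hNE h1
      obtain ⟨s', hs', hst'⟩ := hB t
      exact hin t (hconv s hs s' hs' t hst hst')
    rcases ha0.eq_or_lt with h | h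
    · apply hP
      apply hZ 1 0 0
      · intro t ht _
        have := hmid t (by rw [← h]; exact ht)
        nlinarith
      · intro t _ _
        norm_num
    · apply hP
      apply hone (sInf S) 1 h (by norm_num)
      · intro t ht
        have := hmid t ht
        linarith
      · intro t ht ht2
        have := hlow t ht ht2
        linarith

end Pool.Agent.Helper44.GJ
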